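import Pool.Agent.H498R3.NTNet

/-!
MP_a29272_gt, Q2 has a negative answer in every dimension `n ≥ 3`: there is a Riemannian metric on
the closed ball `M` of radius `2` of `ℝ^n`, Euclidean near the boundary sphere (which is strictly
convex), nontrapping (with a uniform bound for the length of the geodesics contained in `M`), such
that no `C²` function on the interior of `M` has positive definite Hessian everywhere.

The metric is `e^{2φ} |dx|²` with `φ = δ Ψ(s/δ) R`, `s = (1 - |x|²)/2`, `Ψ(u) = u χ(u²)`, and `R` a
cut-off to a small neighbourhood of three half great circles of the unit sphere joining two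
antipodal points at angles of 120°. These three arcs are geodesics and form a closed geodesic net,
which excludes strictly convex functions. Along a unit-speed geodesic `p = 2 ⟨γ, γ'⟩_g` satisfies
`p' = 2 (1 + x·∇φ) ≥ -2ε`, with equality `p' = 2` off the support of `φ`; a compactness argument
shows that `p` increases by a definite amount on every interval of length `4`, because no `C¹`
unit-speed curve of length `4` is contained in the three arcs.
-/

namespace Pool.Agent.Results.MP_a29272_gt.NoStrictlyConvexFunction

open Pool.Agent.H498R3.GB Pool.Agent.H498R3.NT Metric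

theorem result : ∀ n : ℕ, 3 ≤ n → ∃ g : MetricField n,
    IsRiemannianOn g Set.univ ∧
    (∀ x : E n, 3 / 2 ≤ ‖x‖ → g x = 1) ∧
    NontrappingBall g 2 ∧
    ∀ f : E n → ℝ, ContDiffOn ℝ 2 f (ball 0 2) →
      ∃ x ∈ ball (0 : E n) 2, ∃ v : E n, v ≠ 0 ∧ hessForm g f x v ≤ 0 := by
  intro n hn
  obtain ⟨m, rfl⟩ : ∃ m, n = m + 3 := ⟨n - 3, by omega⟩
  exact main m

end Pool.Agent.Results.MP_a29272_gt.NoStrictlyConvexFunction
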